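import Pool.Agent.H61.SM.Cm

/-!
# Module SAB (board `smc_modules`): saturation modulo `∇G · y`
-/

set_option autoImplicit false

namespace Pool.Agent.H61.SM

open MvPolynomial Pool.Agent.H84.SM

variable {k : Type} [Field k]

theorem gr_hom {G : MvPolynomial (Fin 3) k} {d : ℕ} (hG : G.IsHomogeneous d) (l : Fin 3) :
    IsWeightedHomogeneous wx (gr G (xa (k := k)) l) (d - 1) ∧
      IsWeightedHomogeneous wy (gr G (xa (k := k)) l) 0 := by
  have h1 : (pderiv l G).IsHomogeneous (d - 1) := hG.pderiv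
  have h2 := aeval_hom wx h1 (f := xa (k := k)) (m := 1)
    fun i => isWeightedHomogeneous_X k wx (Sum.inl i)
  have h3 := aeval_hom wy h1 (f := xa (k := k)) (m := 0)
    fun i => isWeightedHomogeneous_X k wy (Sum.inl i)
  rw [mul_one] at h2
  rw [mul_zero] at h3
  exact ⟨h2, h3⟩

theorem gA_hom {G : MvPolynomial (Fin 3) k} {d : ℕ} (hG : G.IsHomogeneous d) :
    IsWeightedHomogeneous wx (gA G) d ∧ IsWeightedHomogeneous wy (gA G) 0 := by
  have h2 := aeval_hom wx hG (f := xa (k := k)) (m := 1)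
    fun i => isWeightedHomogeneous_X k wx (Sum.inl i)
  have h3 := aeval_hom wy hG (f := xa (k := k)) (m := 0)
    fun i => isWeightedHomogeneous_X k wy (Sum.inl i)
  rw [mul_one] at h2
  rw [mul_zero] at h3
  exact ⟨h2, h3⟩

theorem fA_hom {G : MvPolynomial (Fin 3) k} {d : ℕ} (hG : G.IsHomogeneous d) :
    IsWeightedHomogeneous wx (fA G) (d - 1) ∧ IsWeightedHomogeneous wy (fA G) 1 := by
  unfold fA dp
  constructor
  · refine IsWeightedHomogeneous.sum _ _ _ fun i _ => ?_
    have h := (gr_hom hG i).1.mul (isWeightedHomogeneous_X k wx (Sum.inr i))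
    exact h
  · refine IsWeightedHomogeneous.sum _ _ _ fun i _ => ?_
    have h := (gr_hom hG i).2.mul (isWeightedHomogeneous_X k wy (Sum.inr i))
    have h0 : 0 + wy (Sum.inr i : Fin 3 ⊕ Fin 3) = 1 := rfl
    rw [h0] at h
    exact h

/-- `∇G · y` does not divide polynomials in `x` -/
theorem fA_not_dvd {G : MvPolynomial (Fin 3) k} {d : ℕ} (hG : G.IsHomogeneous d) {p : A2 k}
    (hp : IsWeightedHomogeneous wy p 0) (h0 : p ≠ 0) : ¬ fA G ∣ p := by
  rintro ⟨q, rfl⟩
  apply h0
  rw [← hp.weightedHomogeneousComponent_same, comp_mul_lt wy (fA_hom hG).2 q 0 one_pos]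

theorem fin3 : ∀ j l : Fin 3, ¬ j = l → ¬ j = l + 1 → j = l + 2 := by decide

/-- the chart `l`, back in `A2` -/
theorem chart_back {G : MvPolynomial (Fin 3) k} {e i M : ℕ} {c : A2 k} (hc : BH e i c) (l : Fin 3)
    (h : aeval xb G ^ M ∣ (aeval (Sum.elim xb (chy G l)) c : B2 k)) :
    ∃ u : A2 k, fA G ∣ gr G xa l ^ i * c - gA G ^ M * u := by
  obtain ⟨θ, hθ⟩ : ∃ θ : B2 k →ₐ[k] A2 k, θ = aeval (Sum.elim xa ![ya (l + 1), ya (l + 2)]) :=
    ⟨_, rfl⟩
  have hx : ∀ j, θ (xb j) = xa j := fun j => by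
    rw [hθ]
    exact aeval_X _ _
  have hq0 : θ (qb 0) = ya (l + 1) := by
    rw [hθ]
    exact aeval_X _ _
  have hq1 : θ (qb 1) = ya (l + 2) := by
    rw [hθ]
    exact aeval_X _ _
  have hxx : (fun j => θ (xb j)) = (xa : Fin 3 → A2 k) := funext hx
  have hgr : ∀ j, θ (gr G xb j) = gr G xa j := fun j => by
    unfold gr
    rw [comp_aeval_apply, hxx]
  have hgA : θ (aeval xb G) = gA G := by
    unfold gA
    rw [comp_aeval_apply, hxx]
  obtain ⟨b, hb⟩ := h
  refine ⟨θ b, ?_⟩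
  have h1 : θ (aeval (Sum.elim xb (chy G l)) c) = gA G ^ M * θ b := by
    rw [hb, map_mul, map_pow, hgA]
  have h2 : gr G xa l ^ i * c = aeval (fun j => (gr G xa l) ^ wy j *
      (X j : A2 k)) c := by
    rw [scale wy hc.2 (fun j => (X j : A2 k)) (gr G xa l), aeval_X_left_apply]
  rw [← h1, comp_aeval_apply, h2]
  refine dvd_aeval_sub (fun j => ?_) c
  rcases j with j | j
  · have e1 : (gr G (xa (k := k)) l) ^ wy (Sum.inl j : Fin 3 ⊕ Fin 3) * (X (Sum.inl j) : A2 k) -
        θ (Sum.elim xb (chy G l) (Sum.inl j)) = 0 := by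
      show (gr G (xa (k := k)) l) ^ 0 * (X (Sum.inl j) : A2 k) - θ (xb j) = 0
      rw [hx, pow_zero, one_mul]
      exact sub_self _
    rw [e1]
    exact dvd_zero _
  · show fA G ∣ (gr G (xa (k := k)) l) ^ 1 * ya j - θ (chy G l j)
    rw [pow_one]
    unfold chy
    by_cases hj : j = l
    · subst hj
      rw [if_pos rfl, map_neg, map_add, map_mul, map_mul, hgr, hgr, hq0, hq1, sub_neg_eq_add]
      have e2 : fA G = gr G (xa (k := k)) j * ya j +
          (gr G xa (j + 1) * ya (j + 1) + gr G xa (j + 2) * ya (j + 2)) := by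
        unfold fA dp
        rw [Fin.sum_univ_three]
        fin_cases j
        · show _ = gr G (xa (k := k)) 0 * ya 0 + (gr G xa 1 * ya 1 + gr G xa 2 * ya 2)
          ring
        · show _ = gr G (xa (k := k)) 1 * ya 1 + (gr G xa 2 * ya 2 + gr G xa 0 * ya 0)
          ring
        · show _ = gr G (xa (k := k)) 2 * ya 2 + (gr G xa 0 * ya 0 + gr G xa 1 * ya 1)
          ring
      rw [← e2]
    · rw [if_neg hj]
      by_cases hj1 : j = l + 1
      · subst hj1
        rw [if_pos rfl, map_mul, hgr, hq0, sub_self]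
        exact dvd_zero _
      · have hj2 : j = l + 2 := fin3 j l hj hj1
        subst hj2
        rw [if_neg hj1, map_mul, hgr, hq1, sub_self]
        exact dvd_zero _

theorem pf_SAB (hRSB : T_RSB) (hNUL : T_NUL) (hGPR : T_GPR) : T_SAB := by
  intro k _ _ _ G d hd hG hirr e i M c hc hch
  obtain ⟨hfp, hrs⟩ := hRSB k G d hd hG
  have hgA0 : gA G ≠ 0 := (hGPR k G d hd hG hirr).2.2.1.ne_zero
  have hh := hG.1
  have hgA := gA_hom hh
  have hfA := fA_hom hh
  have hx0 : ∀ j, ¬ fA G ∣ (xa j : A2 k) := fun j =>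
    fA_not_dvd hh (isWeightedHomogeneous_X k wy (Sum.inl j)) (X_ne_zero _)
  have hgd : ¬ fA G ∣ gA G := fA_not_dvd hh hgA.2 hgA0
  choose u hu using fun l => chart_back hc l (hch l)
  obtain ⟨r, hr⟩ := hNUL k G d (by omega) hG i
  have hpow : ∀ j : Fin 3, ∃ v : A2 k, fA G ∣ xa j ^ r * c - gA G ^ M * v := by
    intro j
    obtain ⟨a, -, ha⟩ := hr r (X j ^ r) le_rfl (isHomogeneous_X_pow j r)
    have h1 := congrArg (aeval (xa (k := k))) ha
    rw [map_pow, aeval_X, map_sum] at h1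
    refine ⟨∑ l, aeval xa (a l) * u l, ?_⟩
    have h2 : xa j ^ r * c - gA G ^ M * ∑ l, aeval xa (a l) * u l =
        ∑ l, aeval xa (a l) * (gr G xa l ^ i * c - gA G ^ M * u l) := by
      rw [h1, Finset.sum_mul, Finset.mul_sum, ← Finset.sum_sub_distrib]
      refine Finset.sum_congr rfl fun l _ => ?_
      rw [map_mul, map_pow]
      unfold gr
      ring
    rw [h2]
    exact Finset.dvd_sum fun l _ => (hu l).mul_left _
  obtain ⟨v0, hv0⟩ := hpow 0
  obtain ⟨v1, hv1⟩ := hpow 1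
  have h3 : fA G ∣ gA G ^ M * (xa 1 ^ r * v0 - xa 0 ^ r * v1) := by
    have e1 : gA G ^ M * (xa 1 ^ r * v0 - xa 0 ^ r * v1) =
        xa 0 ^ r * (xa 1 ^ r * c - gA G ^ M * v1) - xa 1 ^ r * (xa 0 ^ r * c - gA G ^ M * v0) := by
      ring
    rw [e1]
    exact dvd_sub (hv1.mul_left _) (hv0.mul_left _)
  have h4 : fA G ∣ xa 1 ^ r * v0 - xa 0 ^ r * v1 :=
    (hfp.dvd_or_dvd h3).resolve_left fun h => hgd (hfp.dvd_of_dvd_pow h)
  obtain ⟨u', hu'⟩ := hrs r v0 v1 h4
  have h5 : fA G ∣ c - gA G ^ M * u' := by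
    have e1 : xa 0 ^ r * (c - gA G ^ M * u') =
        (xa 0 ^ r * c - gA G ^ M * v0) + gA G ^ M * (v0 - xa 0 ^ r * u') := by ring
    have e2 : fA G ∣ xa 0 ^ r * (c - gA G ^ M * u') := by
      rw [e1]
      exact dvd_add hv0 (hu'.mul_left _)
    exact (hfp.dvd_or_dvd e2).resolve_left fun h => hx0 0 (hfp.dvd_of_dvd_pow h)
  -- the components of bidegree `(e, i)`
  obtain ⟨h, hh'⟩ := h5
  have hc1 : c = gA G ^ M * u' + fA G * h := by
    rw [← hh']
    ring
  have hgM : IsWeightedHomogeneous wx (gA G ^ M) (M * d) := by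
    have := hgA.1.pow M
    rwa [smul_eq_mul] at this
  have hgM' : IsWeightedHomogeneous wy (gA G ^ M) 0 := by
    have := hgA.2.pow M
    rwa [smul_zero] at this
  have hc2 : c = weightedHomogeneousComponent wx e (gA G ^ M * u') +
      weightedHomogeneousComponent wx e (fA G * h) := by
    rw [← map_add, ← hc1, hc.1.weightedHomogeneousComponent_same]
  rcases lt_or_ge e (M * d) with hlt | hge
  · refine ⟨0, ?_, Or.inl rfl⟩
    rw [mul_zero, sub_zero, hc2, comp_mul_lt wx hgM u' e hlt, zero_add]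
    exact dvd_comp wx hfA.1 h e
  · obtain ⟨e', rfl⟩ := Nat.exists_eq_add_of_le hge
    rw [comp_mul wx hgM] at hc2
    obtain ⟨h', hh2⟩ := dvd_comp wx hfA.1 h (M * d + e')
    rw [hh2] at hc2
    have hc3 : c = weightedHomogeneousComponent wy i
          (gA G ^ M * weightedHomogeneousComponent wx e' u') +
        weightedHomogeneousComponent wy i (fA G * h') := by
      rw [← map_add, ← hc2, hc.2.weightedHomogeneousComponent_same]
    have hc4 := comp_mul wy hgM' (weightedHomogeneousComponent wx e' u') i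
    rw [zero_add] at hc4
    rw [hc4] at hc3
    obtain ⟨u2, hu2⟩ : ∃ u2, u2 = weightedHomogeneousComponent wx e' u' := ⟨_, rfl⟩
    have g1 : IsWeightedHomogeneous wx u2 e' := by
      rw [hu2]
      exact weightedHomogeneousComponent_isWeightedHomogeneous e' u'
    rw [← hu2] at hc3
    obtain ⟨b, hb⟩ : ∃ b, b = weightedHomogeneousComponent wy i u2 := ⟨_, rfl⟩
    have g2 : IsWeightedHomogeneous wy b i := by
      rw [hb]
      exact weightedHomogeneousComponent_isWeightedHomogeneous i u2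
    have g3 : IsWeightedHomogeneous wx b e' := by
      rw [hb]
      exact comp_hom wx wy g1 i
    rw [← hb] at hc3
    refine ⟨b, ?_, Or.inr ⟨e', by rw [mul_comm d M, add_comm], g3, g2⟩⟩
    have e1 : c - gA G ^ M * b = weightedHomogeneousComponent wy i (fA G * h') := by
      rw [sub_eq_iff_eq_add, add_comm]
      exact hc3
    rw [e1]
    exact dvd_comp wy hfA.2 h' i

end Pool.Agent.H61.SM
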