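import Pool.Agent.H61.SM.Cm

/-!
# Module SAS (board `smc_modules`): saturation on the curve
-/

set_option autoImplicit false

namespace Pool.Agent.H61.SM

open MvPolynomial Pool.Agent.H84.SM

/-- regular sequences: powers -/
theorem reg_pow {R : Type} [CommRing R] [IsDomain R] {x g a : R} (hx : x ≠ 0)
    (hstep : ∀ u h, x ∣ a * u - g * h → ∃ z, x ∣ u - g * z ∧ x ∣ h - a * z) (m : ℕ) :
    ∀ u h, x ^ m ∣ a * u - g * h → ∃ z, x ^ m ∣ u - g * z ∧ x ^ m ∣ h - a * z := by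
  induction m with
  | zero =>
    intro u h _
    exact ⟨0, by rw [pow_zero]; exact ⟨one_dvd _, one_dvd _⟩⟩
  | succ m ih =>
    intro u h hd
    obtain ⟨z, ⟨u', hu⟩, ⟨h', hh⟩⟩ := ih u h (dvd_trans (pow_dvd_pow x (Nat.le_succ m)) hd)
    have e1 : a * u - g * h = x ^ m * (a * u' - g * h') := by
      have e2 : u = g * z + x ^ m * u' := by rw [← hu]; ring
      have e3 : h = a * z + x ^ m * h' := by rw [← hh]; ring
      rw [e2, e3]
      ring
    rw [e1, pow_succ] at hd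
    have h1 : x ∣ a * u' - g * h' := (mul_dvd_mul_iff_left (pow_ne_zero m hx)).1 hd
    obtain ⟨w, ⟨u2, hu2⟩, ⟨h2, hh2⟩⟩ := hstep u' h' h1
    refine ⟨z + x ^ m * w, ⟨u2, ?_⟩, ⟨h2, ?_⟩⟩
    · have e3 : u - g * (z + x ^ m * w) = (u - g * z) - x ^ m * (g * w) := by ring
      rw [e3, hu, ← mul_sub, hu2]
      ring
    · have e3 : h - a * (z + x ^ m * w) = (h - a * z) - x ^ m * (a * w) := by ring
      rw [e3, hh, ← mul_sub, hh2]
      ring

section

variable {k : Type} [Field k]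

/-- the linear form `x 1 - t x 2` is prime -/
theorem prime_lin (t : k) : Prime (X 1 - C t * X 2 : MvPolynomial (Fin 3) k) := by
  obtain ⟨a, ha⟩ : ∃ a : MvPolynomial (Fin 3) k, a = X 1 - C t * X 2 := ⟨_, rfl⟩
  obtain ⟨σ, hσ⟩ : ∃ σ : MvPolynomial (Fin 3) k →ₐ[k] MvPolynomial (Fin 3) k,
    σ = aeval ![X 0, C t * X 2, X 2] := ⟨_, rfl⟩
  have hσa : σ a = 0 := by
    rw [ha, hσ, map_sub, map_mul, aeval_X, aeval_X, algHom_C]
    show C t * X 2 - C t * X 2 = (0 : MvPolynomial (Fin 3) k)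
    exact sub_self _
  have hd : ∀ P, a ∣ P - σ P := by
    intro P
    have h1 := dvd_aeval_sub (R := k) (f₁ := (X : Fin 3 → MvPolynomial (Fin 3) k))
      (f₂ := ![X 0, C t * X 2, X 2]) (a := a) (fun j => by
        fin_cases j
        · show a ∣ X 0 - X 0
          rw [sub_self]
          exact dvd_zero _
        · show a ∣ X 1 - C t * X 2
          rw [ha]
        · show a ∣ X 2 - X 2
          rw [sub_self]
          exact dvd_zero _) P
    rw [aeval_X_left_apply, ← hσ] at h1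
    exact h1
  have hiff : ∀ P, a ∣ P ↔ σ P = 0 := by
    intro P
    constructor
    · rintro ⟨Q, rfl⟩
      rw [map_mul, hσa, zero_mul]
    · intro h
      have := hd P
      rwa [h, sub_zero] at this
  rw [← ha]
  refine ⟨?_, ?_, ?_⟩
  · intro h0
    have h1 := congrArg (eval ![0, 1, 0]) h0
    rw [ha, map_sub, map_mul, eval_X, eval_X, eval_C, map_zero] at h1
    have h2 : (1 : k) - t * 0 = 0 := h1
    rw [mul_zero, sub_zero] at h2
    exact one_ne_zero h2
  · intro h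
    have h1 := (hiff 1).1 h.dvd
    rw [map_one] at h1
    exact one_ne_zero h1
  · intro P Q h
    rw [hiff, hiff]
    rw [hiff, map_mul] at h
    exact mul_eq_zero.1 h

/-- the substitution `x 0 ↦ 0` -/
noncomputable def rho : MvPolynomial (Fin 3) k →ₐ[k] MvPolynomial (Fin 3) k :=
  aeval ![0, X 1, X 2]

theorem rho_dvd (P : MvPolynomial (Fin 3) k) : X 0 ∣ P - rho P := by
  have h1 := dvd_aeval_sub (R := k) (f₁ := (X : Fin 3 → MvPolynomial (Fin 3) k))
    (f₂ := ![0, X 1, X 2]) (a := X 0) (fun j => by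
      fin_cases j
      · show X 0 ∣ X 0 - 0
        rw [sub_zero]
      · show X 0 ∣ X 1 - X 1
        rw [sub_self]
        exact dvd_zero _
      · show X 0 ∣ X 2 - X 2
        rw [sub_self]
        exact dvd_zero _) P
  rw [aeval_X_left_apply] at h1
  exact h1

theorem rho_zero {P : MvPolynomial (Fin 3) k} (h : X 0 ∣ P) : rho P = 0 := by
  obtain ⟨Q, rfl⟩ := h
  have h1 : rho (X 0 : MvPolynomial (Fin 3) k) = 0 := aeval_X _ _
  rw [map_mul, h1, zero_mul]

/-- one step for the sequence `x 0`, `G`, `(x 1 - t x 2) ^ E` -/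
theorem step {G : MvPolynomial (Fin 3) k} {t : k} (ht : eval ![0, t, 1] G ≠ 0) (E : ℕ)
    (u h : MvPolynomial (Fin 3) k)
    (hd : X 0 ∣ (X 1 - C t * X 2) ^ E * u - G * h) :
    ∃ z, X 0 ∣ u - G * z ∧ X 0 ∣ h - (X 1 - C t * X 2) ^ E * z := by
  obtain ⟨a, ha⟩ : ∃ a : MvPolynomial (Fin 3) k, a = X 1 - C t * X 2 := ⟨_, rfl⟩
  have hpr : Prime a := by
    rw [ha]
    exact prime_lin t
  rw [← ha] at hd ⊢
  have hra : rho a = a := by
    have h1 : rho (X 1 : MvPolynomial (Fin 3) k) = X 1 := aeval_X _ _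
    have h2 : rho (X 2 : MvPolynomial (Fin 3) k) = X 2 := aeval_X _ _
    rw [ha, map_sub, map_mul, h1, h2, algHom_C]
    rfl
  have hnd : ¬ a ∣ rho G := by
    rintro ⟨Q, hQ⟩
    have h1 := congrArg (eval ![0, t, 1]) hQ
    rw [map_mul] at h1
    have h2 : eval ![0, t, 1] a = 0 := by
      rw [ha, map_sub, map_mul, eval_X, eval_X, eval_C]
      show t - t * 1 = 0
      rw [mul_one, sub_self]
    obtain ⟨Q', hQ'⟩ := rho_dvd G
    have h3 : eval ![0, t, 1] (rho G) = eval ![0, t, 1] G := by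
      have h4 : rho G = G - X 0 * Q' := by rw [← hQ']; ring
      rw [h4, map_sub, map_mul, eval_X]
      show _ - 0 * _ = _
      rw [zero_mul, sub_zero]
    rw [h2, zero_mul, h3] at h1
    exact ht h1
  have h0 := rho_zero hd
  rw [map_sub, map_mul, map_mul, map_pow, hra, sub_eq_zero] at h0
  have h1 : a ^ E ∣ rho G * rho h := ⟨rho u, h0.symm⟩
  obtain ⟨z, hz⟩ := hpr.pow_dvd_of_dvd_mul_left E hnd h1
  have h2 : rho u = rho G * z := by
    have h3 : a ^ E * rho u = a ^ E * (rho G * z) := by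
      rw [h0, hz]
      ring
    exact mul_left_cancel₀ (pow_ne_zero E hpr.ne_zero) h3
  refine ⟨z, ?_, ?_⟩
  · have e1 : u - G * z = (u - rho u) - (G - rho G) * z := by
      rw [h2]
      ring
    rw [e1]
    exact dvd_sub (rho_dvd u) ((rho_dvd G).mul_right z)
  · have e1 : h - a ^ E * z = h - rho h := by rw [hz]
    rw [e1]
    exact rho_dvd h

theorem not_dvd_X {G : MvPolynomial (Fin 3) k} {d : ℕ} (hd : 2 ≤ d) (hG : G.IsHomogeneous d)
    (l : Fin 3) : ¬ G ∣ X l := by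
  rintro ⟨Q, hQ⟩
  have h1 : IsWeightedHomogeneous (1 : Fin 3 → ℕ) (X l : MvPolynomial (Fin 3) k) 1 :=
    isHomogeneous_X k l
  have h2 := h1.weightedHomogeneousComponent_same
  rw [hQ, comp_mul_lt (1 : Fin 3 → ℕ) (n := d) hG Q 1 hd, ← hQ] at h2
  exact X_ne_zero l h2.symm

theorem X_not_dvd {G : MvPolynomial (Fin 3) k} {d : ℕ} (hd : 2 ≤ d) (hG : G.IsHomogeneous d)
    (hirr : Irreducible G) (l : Fin 3) : ¬ X l ∣ G := by
  rintro ⟨Q, hQ⟩
  rcases hirr.isUnit_or_isUnit hQ with h | h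
  · have h1 := h.map (eval (0 : Fin 3 → k))
    rw [eval_X] at h1
    exact h1.ne_zero rfl
  · obtain ⟨R, hR⟩ := h.exists_right_inv
    refine not_dvd_X hd hG l ⟨R, ?_⟩
    rw [hQ, mul_assoc, hR, mul_one]

theorem ae_ev (a : Fin 3 → k) (p : MvPolynomial (Fin 3) k) : aeval a p = eval a p := rfl

/-- a point off the curve -/
theorem exists_pt [Infinite k] {G : MvPolynomial (Fin 3) k} {d : ℕ} (hd : 2 ≤ d)
    (hG : G.IsHomogeneous d) (hirr : Irreducible G) : ∃ t : k, eval ![0, t, 1] G ≠ 0 := by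
  by_contra hcon
  push Not at hcon
  apply X_not_dvd hd hG hirr 0
  have h1 : rho G * X 2 = 0 := by
    apply MvPolynomial.funext
    intro a
    rw [map_mul, eval_X, map_zero]
    by_cases h2 : a 2 = 0
    · rw [h2, mul_zero]
    · have h3 : eval a (rho G) = eval ![0, a 1, a 2] G := by
        have h4 : eval a (rho G) = aeval (fun i => eval a (![0, X 1, X 2] i)) G := by
          have h5 := comp_aeval_apply (R := k) (![0, X 1, X 2] : Fin 3 → MvPolynomial (Fin 3) k)
            (aeval a : MvPolynomial (Fin 3) k →ₐ[k] k) G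
          exact h5
        rw [h4, ← ae_ev ![0, a 1, a 2] G]
        congr 2
        funext i
        fin_cases i
        · show eval a 0 = 0
          rw [map_zero]
        · show eval a (X 1) = a 1
          rw [eval_X]
        · show eval a (X 2) = a 2
          rw [eval_X]
      have h6 : eval ![0, a 1, a 2] G = a 2 ^ d * eval ![0, a 1 / a 2, 1] G := by
        have h7 := scale (R := k) (1 : Fin 3 → ℕ) (n := d) hG ![0, a 1 / a 2, 1] (a 2)
        rw [← ae_ev, ← ae_ev, ← h7]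
        congr 2
        funext i
        fin_cases i
        · show 0 = a 2 ^ 1 * 0
          rw [mul_zero]
        · show a 1 = a 2 ^ 1 * (a 1 / a 2)
          rw [pow_one, mul_div_cancel₀ _ h2]
        · show a 2 = a 2 ^ 1 * 1
          rw [pow_one, mul_one]
      rw [h3, h6, hcon, mul_zero, zero_mul]
  have h2 := (mul_eq_zero.1 h1).resolve_right (X_ne_zero 2)
  have h3 := rho_dvd G
  rwa [h2, sub_zero] at h3

variable {L : Type} [Field L] [Algebra k L]

theorem mem_SS {c : Fin 3 → L} {r : ℤ} {f : L} (hf : f ∈ SS (k := k) c r) :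
    ∃ φ : MvPolynomial (Fin 3) k, φ.IsHomogeneous r.toNat ∧ (r < 0 → φ = 0) ∧ f = aeval c φ := by
  unfold SS at hf
  induction hf using Submodule.span_induction with
  | mem f hf =>
    obtain ⟨r', φ, hr, hφ, rfl⟩ := hf
    refine ⟨φ, ?_, fun h => absurd h (by omega), rfl⟩
    rw [← hr]
    exact hφ
  | zero => exact ⟨0, isHomogeneous_zero _ _ _, fun _ => rfl, (map_zero _).symm⟩
  | add f g _ _ hf hg =>
    obtain ⟨φ, h1, h2, rfl⟩ := hf
    obtain ⟨ψ, h3, h4, rfl⟩ := hg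
    exact ⟨φ + ψ, h1.add h3, fun h => by rw [h2 h, h4 h, add_zero], (map_add _ _ _).symm⟩
  | smul a f _ hf =>
    obtain ⟨φ, h1, h2, rfl⟩ := hf
    refine ⟨a • φ, ?_, fun h => by rw [h2 h, smul_zero], (map_smul _ _ _).symm⟩
    exact (homogeneousSubmodule (Fin 3) k _).smul_mem a h1

theorem SS_mk {c : Fin 3 → L} {r : ℤ} {n : ℕ} (hr : (n : ℤ) = r) {φ : MvPolynomial (Fin 3) k}
    (hφ : φ.IsHomogeneous n) : aeval c φ ∈ SS (k := k) c r :=
  Submodule.subset_span ⟨n, φ, hr, hφ, rfl⟩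

theorem SS_mul {c : Fin 3 → L} {r : ℤ} {f : L} (hf : f ∈ SS (k := k) c r) {n : ℕ}
    {φ : MvPolynomial (Fin 3) k} (hφ : φ.IsHomogeneous n) :
    aeval c φ * f ∈ SS (k := k) c (r + n) := by
  unfold SS at hf
  induction hf using Submodule.span_induction with
  | mem f hf =>
    obtain ⟨r', ψ, hr, hψ, rfl⟩ := hf
    rw [← map_mul]
    exact SS_mk (n := n + r') (by push_cast; omega) (hφ.mul hψ)
  | zero =>
    rw [mul_zero]
    exact Submodule.zero_mem _
  | add f g _ _ hf hg =>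
    rw [mul_add]
    exact Submodule.add_mem _ hf hg
  | smul a f _ hf =>
    rw [mul_smul_comm]
    exact Submodule.smul_mem _ a hf

end

theorem pf_SAS (hNUL : T_NUL) : T_SAS := by
  intro k L _ _ _ _ _ G d c hd hG hirr hgen f r N hf
  have hh := hG.1
  obtain ⟨e0, he0⟩ := hNUL k G d (by omega) hG N
  obtain ⟨e1, he1⟩ : ∃ e1, e1 = max e0 (N * (d - 1)) := ⟨_, rfl⟩
  have h01 : e0 ≤ e1 := he1 ▸ le_max_left _ _
  have h11 : N * (d - 1) ≤ e1 := he1 ▸ le_max_right _ _
  obtain ⟨D, hD⟩ : ∃ D, D = N + e1 := ⟨_, rfl⟩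
  -- powers of the variables
  have hvar : ∀ l : Fin 3, aeval c (X l ^ D : MvPolynomial (Fin 3) k) * f ∈
      SS (k := k) c (r + D) := by
    intro l
    obtain ⟨a, ha, hX⟩ := he0 e1 (X l ^ e1) h01 (isHomogeneous_X_pow l e1)
    have h1 : aeval c (X l ^ D : MvPolynomial (Fin 3) k) * f =
        ∑ i, aeval c (a i) * (c l ^ N * gr G c i ^ N * f) := by
      rw [hD, pow_add, hX, map_mul, map_pow, aeval_X, map_sum, Finset.mul_sum, Finset.sum_mul]
      refine Finset.sum_congr rfl fun i _ => ?_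
      rw [map_mul, map_pow]
      unfold gr
      ring
    rw [h1]
    refine Submodule.sum_mem _ fun i _ => ?_
    have h2 := SS_mul (hf l i) (ha i)
    have h3 : r + N + N * ((d : ℤ) - 1) + ((e1 - N * (d - 1) : ℕ) : ℤ) = r + D := by
      have h4 : ((N * (d - 1) : ℕ) : ℤ) = N * ((d : ℤ) - 1) := by
        rw [Nat.cast_mul, Nat.cast_sub (by omega)]
        rfl
      rw [Nat.cast_sub h11, h4, hD]
      push_cast
      ring
    rw [h3] at h2
    exact h2
  obtain ⟨t, ht⟩ := exists_pt hd hh hirr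
  -- the ideal
  obtain ⟨I, hI⟩ : ∃ I : Ideal (MvPolynomial (Fin 3) k), ∀ p, p ∈ I ↔
      ∃ v : MvPolynomial (Fin 3) k, aeval c p * f = aeval c v := by
    refine ⟨{ carrier := {p | ∃ v : MvPolynomial (Fin 3) k, aeval c p * f = aeval c v}
              add_mem' := ?_
              zero_mem' := ⟨0, by rw [map_zero, zero_mul]⟩
              smul_mem' := ?_ }, fun p => Iff.rfl⟩
    · rintro p q ⟨v, hv⟩ ⟨w, hw⟩
      exact ⟨v + w, by rw [map_add, map_add, add_mul, hv, hw]⟩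
    · rintro p q ⟨v, hv⟩
      exact ⟨p * v, by rw [smul_eq_mul, map_mul, map_mul, mul_assoc, hv]⟩
  have hXI : ∀ l : Fin 3, (X l ^ D : MvPolynomial (Fin 3) k) ∈ I := by
    intro l
    obtain ⟨v, -, -, hv⟩ := mem_SS (hvar l)
    exact (hI _).2 ⟨v, hv⟩
  have hlin : (X 1 - C t * X 2 : MvPolynomial (Fin 3) k) ^ (D + D) ∈ I := by
    rw [sub_eq_add_neg]
    refine I.add_pow_mem_of_pow_mem_of_le (hXI 1) (n := D) ?_ (by omega)
    have h1 : (-(C t * X 2) : MvPolynomial (Fin 3) k) ^ D = (-C t) ^ D * X 2 ^ D := by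
      rw [← mul_pow]
      ring
    rw [h1]
    exact I.mul_mem_left _ (hXI 2)
  obtain ⟨v, hv⟩ := (hI _).1 hlin
  obtain ⟨u, hu1, hu2, hu3⟩ := mem_SS (hvar 0)
  have hc0 : ∀ n : ℕ, aeval c (X 0 ^ n : MvPolynomial (Fin 3) k) ≠ 0 := by
    intro n
    rw [map_pow]
    exact pow_ne_zero n fun h => not_dvd_X hd hh 0 ((hgen _).1 h)
  have h1 : G ∣ (X 1 - C t * X 2) ^ (D + D) * u - X 0 ^ D * v := by
    rw [← hgen, map_sub, map_mul, map_mul, ← hu3, ← hv]
    ring
  obtain ⟨h, hh'⟩ := h1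
  have h2 : X 0 ^ D ∣ (X 1 - C t * X 2) ^ (D + D) * u - G * h := ⟨v, by rw [← hh']; ring⟩
  obtain ⟨z, ⟨u1, hz⟩, -⟩ := reg_pow (X_ne_zero 0) (step ht (D + D)) D u h h2
  have hu4 : u = X 0 ^ D * u1 + G * z := by rw [← hz]; ring
  have hGc : aeval c G = 0 := (hgen G).2 dvd_rfl
  have hXD : IsWeightedHomogeneous (1 : Fin 3 → ℕ) (X 0 ^ D : MvPolynomial (Fin 3) k) D :=
    isHomogeneous_X_pow 0 D
  have hf0 : aeval c u = 0 → f ∈ SS (k := k) c r := by
    intro h0
    rw [h0] at hu3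
    have h5 := (mul_eq_zero.1 hu3).resolve_left (hc0 D)
    rw [h5]
    exact Submodule.zero_mem _
  rcases lt_or_ge (r + D) 0 with hneg | hpos
  · exact hf0 (by rw [hu2 hneg, map_zero])
  obtain ⟨n, hn⟩ : ∃ n, n = (r + D).toNat := ⟨_, rfl⟩
  rw [← hn] at hu1
  have hcomp : u = weightedHomogeneousComponent (1 : Fin 3 → ℕ) n (X 0 ^ D * u1) +
      weightedHomogeneousComponent (1 : Fin 3 → ℕ) n (G * z) := by
    rw [← map_add, ← hu4]
    exact (IsWeightedHomogeneous.weightedHomogeneousComponent_same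
      (w := (1 : Fin 3 → ℕ)) hu1).symm
  have hGz : aeval c (weightedHomogeneousComponent (1 : Fin 3 → ℕ) n (G * z)) = 0 :=
    (hgen _).2 (dvd_comp (1 : Fin 3 → ℕ) (n := d) hh z n)
  rcases lt_or_ge r 0 with hr | hr
  · apply hf0
    rw [hcomp, map_add, hGz, comp_mul_lt (1 : Fin 3 → ℕ) hXD u1 n (by omega), map_zero, add_zero]
  · have hn2 : n = D + r.toNat := by omega
    rw [hn2, comp_mul (1 : Fin 3 → ℕ) hXD, ← hn2] at hcomp
    have h5 : aeval c u = aeval c (X 0 ^ D : MvPolynomial (Fin 3) k) *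
        aeval c (weightedHomogeneousComponent (1 : Fin 3 → ℕ) r.toNat u1) := by
      rw [hcomp, map_add, hGz, map_mul, add_zero]
    rw [h5] at hu3
    rw [mul_left_cancel₀ (hc0 D) hu3]
    exact SS_mk (n := r.toNat) (by omega)
      (weightedHomogeneousComponent_isWeightedHomogeneous r.toNat u1)

end Pool.Agent.H61.SM
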