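import Pool.Agent.H20.SM.Targets
import Pool.Agent.H50.CA.CFY

/-!
Row CFYq: the number of the ray class characters whose inverse is a conjugate, squarefree moduli.
-/

set_option autoImplicit false

open NumberField Complex Filter Topology

namespace Pool.Agent.H61.SM

open Pool.Agent.H37.CA Pool.Agent.H37.CV Pool.Agent.H28.RC Pool.Agent.H25 Pool.Agent.H25.HK
open Pool.Agent.H49.CA Pool.Agent.H50.CA Pool.Agent.H20.SM

variable {F : Type} [Field F] [NumberField F]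

theorem cfyq_top (q : ℕ) (hq : 2 ≤ q) : qi F q ≠ ⊤ := by
  intro h
  rw [qi, Ideal.span_singleton_eq_top] at h
  have h1 : Ideal.absNorm (Ideal.span {(q : 𝓞 F)}) = 1 := by
    rw [Ideal.absNorm_eq_one_iff, Ideal.span_singleton_eq_top]
    exact h
  rw [Ideal.absNorm_span_natCast] at h1
  have h2 : Module.finrank ℤ (𝓞 F) ≠ 0 := by
    rw [RingOfIntegers.rank]
    exact Module.finrank_pos.ne'
  exact absurd h1 (Nat.one_lt_pow h2 (by omega)).ne'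

theorem cfyq_bot (q : ℕ) (hq : 2 ≤ q) : qi F q ≠ ⊥ := by
  rw [qi, Ne, Ideal.span_singleton_eq_bot]
  exact_mod_cast (by omega : q ≠ 0)

/-- these characters come from the quotient -/
theorem cfyq_quot (q : ℕ) (hq : 2 ≤ q) (σ : F ≃ₐ[ℚ] F) {ψ : Ideal (𝓞 F) → ℂ}
    (hψ : ψ ∈ Ch (qi F q) (qi F q))
    (hσ : ∀ I : Ideal (𝓞 F), I ≠ ⊥ → I ⊔ qi F q = ⊤ → ψ (cj σ I) * ψ I = 1) :
    ∃ θ : ((𝓞 F ⧸ qi F q)ˣ ⧸ (dY q σ).range) →* ℂˣ,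
      ∀ x : (𝓞 F ⧸ qi F q)ˣ, ((θ (QuotientGroup.mk x) : ℂˣ) : ℂ) =
        ψ (Ideal.span {lf (qi F q) x}) := by
  have hm := cfyq_top (F := F) q hq
  let χ : (𝓞 F ⧸ qi F q)ˣ →* ℂˣ := (hC hm hψ).toHomUnits
  have hχ : ∀ x, ((χ x : ℂˣ) : ℂ) = ψ (Ideal.span {lf (qi F q) x}) := fun x => rfl
  have hker : (dY q σ).range ≤ χ.ker := by
    rintro _ ⟨x, rfl⟩
    rw [MonoidHom.mem_ker, dY_apply, map_mul]
    refine Units.ext ?_
    have hc := cop_lf (qi F q) x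
    rw [Units.val_mul, hχ, hχ, ← val_eq hm hψ (sX q σ x) (sR σ (lf (qi F q) x))
      (sX_val q σ x).symm, ← cj_span, Units.val_one]
    refine hσ _ ?_ hc
    rw [Ne, Ideal.span_singleton_eq_bot]
    exact ne_zero_of_cop hm hc
  refine ⟨QuotientGroup.lift (dY q σ).range χ hker, fun x => ?_⟩
  rw [QuotientGroup.lift_mk, hχ]

/-- the size of the kernel -/
theorem cfyq_ker (q : ℕ) (hq : 2 ≤ q) (σ : F ≃ₐ[ℚ] F) :
    Nat.card (dY q σ).ker ≤ {y : 𝓞 F ⧸ qi F q | ∃ x : 𝓞 F, Ideal.Quotient.mk (qi F q) x = y ∧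
      (σ • x) * x - 1 ∈ qi F q}.ncard := by
  have : Finite (𝓞 F ⧸ qi F q) := Ideal.finiteQuotientOfFreeOfNeBot _ (cfyq_bot q hq)
  have h1 : Nat.card (dY q σ).ker =
      ((fun x : (𝓞 F ⧸ qi F q)ˣ => (x : 𝓞 F ⧸ qi F q)) '' ((dY q σ).ker : Set _)).ncard := by
    rw [Set.ncard_image_of_injective _ Units.val_injective]
    rfl
  rw [h1]
  refine Set.ncard_le_ncard ?_ (Set.toFinite _)
  rintro _ ⟨x, hx, rfl⟩
  refine ⟨lf (qi F q) x, mk_lf _ x, ?_⟩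
  have h2 : dY q σ x = 1 := hx
  rw [dY_apply] at h2
  have h3 : ((sX q σ x * x : (𝓞 F ⧸ qi F q)ˣ) : 𝓞 F ⧸ qi F q) = 1 := by rw [h2, Units.val_one]
  rw [Units.val_mul, sX_val, ← mk_lf (qi F q) x, ← map_mul, ← map_one (Ideal.Quotient.mk _),
    Ideal.Quotient.eq] at h3
  exact h3

theorem pf_CFYq (hFXYq : T_FXYq) : T_CFYq := by
  classical
  intro F _ _ _ _
  set n := Fintype.card (ClassGroup (𝓞 F)) with hn
  set B : (F ≃ₐ[ℚ] F) → ℕ := fun τ => {ψ | ψ ∈ Ch (qi F 1) (qi F 1) ∧ ∀ I : Ideal (𝓞 F),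
    I ≠ ⊥ → I ⊔ qi F 1 = ⊤ → ψ (cj τ I) * ψ I = 1}.ncard with hB
  refine ⟨((n ^ n : ℕ) : ℝ) + ((∑ τ : F ≃ₐ[ℚ] F, B τ : ℕ) : ℝ), fun q hq h5q σ => ?_⟩
  have hq0' : q ≠ 0 := hq.1.ne_zero
  have hq0 : (0 : ℝ) < q := by exact_mod_cast Nat.pos_of_ne_zero hq0'
  by_cases hq1 : q = 1
  · subst hq1
    have h1 : B σ ≤ ∑ τ : F ≃ₐ[ℚ] F, B τ :=
      Finset.single_le_sum (fun τ _ => Nat.zero_le _) (Finset.mem_univ σ)
    have h2 : ((B σ : ℕ) : ℝ) ≤ ((∑ τ : F ≃ₐ[ℚ] F, B τ : ℕ) : ℝ) := by exact_mod_cast h1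
    have h3 : ((1 : ℕ) : ℝ) ^ ((Module.finrank ℚ F : ℝ) / 2) = 1 := by
      rw [Nat.cast_one, Real.one_rpow]
    rw [h3, mul_one]
    have h4 : (0 : ℝ) ≤ ((n ^ n : ℕ) : ℝ) := Nat.cast_nonneg _
    calc _ = ((B σ : ℕ) : ℝ) := rfl
      _ ≤ ((n ^ n : ℕ) : ℝ) + ((∑ τ : F ≃ₐ[ℚ] F, B τ : ℕ) : ℝ) := by linarith
  have hq2 : 2 ≤ q := by omega
  set A := {ψ | ψ ∈ Ch (qi F q) (qi F q) ∧ ∀ I : Ideal (𝓞 F), I ≠ ⊥ → I ⊔ qi F q = ⊤ →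
      ψ (cj σ I) * ψ I = 1} with hA
  have hm := cfyq_top (F := F) q hq2
  have hC0 : (0 : ℝ) ≤ ((∑ τ : F ≃ₐ[ℚ] F, B τ : ℕ) : ℝ) := Nat.cast_nonneg _
  by_cases hfin : A.Finite
  swap
  · rw [Set.Infinite.ncard hfin, Nat.cast_zero]
    positivity
  have : Finite (𝓞 F ⧸ qi F q) := Ideal.finiteQuotientOfFreeOfNeBot _ (cfyq_bot q hq2)
  have hS := hFXYq F q hq h5q σ
  set S := {y : 𝓞 F ⧸ qi F q | ∃ x : 𝓞 F, Ideal.Quotient.mk (qi F q) x = y ∧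
      (σ • x) * x - 1 ∈ qi F q} with hSdef
  let f : (Ideal (𝓞 F) → ℂ) → ((𝓞 F ⧸ qi F q)ˣ → ℂ) := fun ψ x =>
    ψ (Ideal.span {lf (qi F q) x})
  have h1 : hfin.toFinset.card ≤ n ^ n * (hfin.toFinset.image f).card := by
    refine Finset.card_le_mul_card_image _ _ fun g _ => ?_
    refine fib_card (qi F q) hm _ (fun ψ hψ => ?_) g (fun ψ hψ x => ?_)
    · exact (hfin.mem_toFinset.1 (Finset.mem_filter.1 hψ).1).1
    · exact congrFun (Finset.mem_filter.1 hψ).2 x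
  obtain ⟨hfinQ, hcardQ⟩ := card_dual_quot (𝓞 F ⧸ qi F q)ˣ (dY q σ).range
  have h2 : (hfin.toFinset.image f).card ≤ Nat.card (dY q σ).ker := by
    have h3 : ((hfin.toFinset.image f : Finset _) : Set ((𝓞 F ⧸ qi F q)ˣ → ℂ)) ⊆
        Set.range (fun (θ : ((𝓞 F ⧸ qi F q)ˣ ⧸ (dY q σ).range) →* ℂˣ) (x : (𝓞 F ⧸ qi F q)ˣ) =>
          ((θ (QuotientGroup.mk x) : ℂˣ) : ℂ)) := by
      intro g hg
      obtain ⟨ψ, hψ, rfl⟩ := Finset.mem_image.1 (Finset.mem_coe.1 hg)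
      obtain ⟨h4, h5⟩ := hfin.mem_toFinset.1 hψ
      obtain ⟨θ, hθ⟩ := cfyq_quot q hq2 σ h4 h5
      exact ⟨θ, funext hθ⟩
    rw [← Set.ncard_coe_finset]
    refine (Set.ncard_le_ncard h3 (Set.finite_range _)).trans ?_
    rw [← Set.image_univ]
    refine (Set.ncard_image_le (Set.finite_univ)).trans ?_
    rw [Set.ncard_univ, hcardQ, index_range_eq]
  have h3 := cfyq_ker q hq2 σ
  have h4 : (S.ncard : ℝ) ≤ (q : ℝ) ^ ((Module.finrank ℚ F : ℝ) / 2) := by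
    have h5 : (S.ncard : ℝ) ^ 2 ≤ ((q : ℝ) ^ ((Module.finrank ℚ F : ℝ) / 2)) ^ 2 := by
      rw [← Real.rpow_natCast ((q : ℝ) ^ ((Module.finrank ℚ F : ℝ) / 2)) 2,
        ← Real.rpow_mul hq0.le]
      have h6 : (Module.finrank ℚ F : ℝ) / 2 * ((2 : ℕ) : ℝ) = (Module.finrank ℚ F : ℝ) := by
        push_cast
        ring
      rw [h6, Real.rpow_natCast]
      exact_mod_cast hS
    exact (pow_le_pow_iff_left₀ (by positivity) (by positivity) two_ne_zero).1 h5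
  have h5 : A.ncard ≤ n ^ n * S.ncard := by
    rw [Set.ncard_eq_toFinset_card _ hfin]
    exact h1.trans (Nat.mul_le_mul_left _ (h2.trans h3))
  calc (A.ncard : ℝ) ≤ ((n ^ n * S.ncard : ℕ) : ℝ) := by exact_mod_cast h5
    _ = ((n ^ n : ℕ) : ℝ) * (S.ncard : ℝ) := by push_cast; ring
    _ ≤ ((n ^ n : ℕ) : ℝ) * (q : ℝ) ^ ((Module.finrank ℚ F : ℝ) / 2) :=
        mul_le_mul_of_nonneg_left h4 (by positivity)
    _ ≤ (((n ^ n : ℕ) : ℝ) + ((∑ τ : F ≃ₐ[ℚ] F, B τ : ℕ) : ℝ)) *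
        (q : ℝ) ^ ((Module.finrank ℚ F : ℝ) / 2) :=
        mul_le_mul_of_nonneg_right (by linarith) (by positivity)

end Pool.Agent.H61.SM
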