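import Pool.Agent.H84.SM.Targets

/-!
# Facts on weighted homogeneous polynomials and substitutions (board `smc_modules`)
-/

set_option autoImplicit false

namespace Pool.Agent.H61.SM

open MvPolynomial Pool.Agent.H84.SM

section Comp

variable {σ R : Type} [CommRing R]

/-- components of a product with a homogeneous factor -/
theorem comp_mul (w : σ → ℕ) {p : MvPolynomial σ R} {n : ℕ} (hp : IsWeightedHomogeneous w p n)
    (q : MvPolynomial σ R) (m : ℕ) :
    weightedHomogeneousComponent w (n + m) (p * q) = p * weightedHomogeneousComponent w m q := by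
  classical
  induction q using MvPolynomial.induction_on' with
  | monomial e r =>
    have h1 : IsWeightedHomogeneous w (monomial e r) (Finsupp.weight w e) :=
      isWeightedHomogeneous_monomial w e r rfl
    rw [weightedHomogeneousComponent_of_mem (m := m)
        ((mem_weightedHomogeneousSubmodule R w _ _).2 h1),
      weightedHomogeneousComponent_of_mem (m := n + m)
        ((mem_weightedHomogeneousSubmodule R w _ _).2 (hp.mul h1))]
    by_cases h : m = Finsupp.weight w e
    · rw [if_pos h, if_pos (by rw [h])]
    · rw [if_neg h, if_neg (by omega), mul_zero]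
  | add p q hp hq => rw [mul_add, map_add, map_add, mul_add, hp, hq]

theorem comp_mul_lt (w : σ → ℕ) {p : MvPolynomial σ R} {n : ℕ} (hp : IsWeightedHomogeneous w p n)
    (q : MvPolynomial σ R) (m : ℕ) (hm : m < n) :
    weightedHomogeneousComponent w m (p * q) = 0 := by
  classical
  induction q using MvPolynomial.induction_on' with
  | monomial e r =>
    have h1 : IsWeightedHomogeneous w (monomial e r) (Finsupp.weight w e) :=
      isWeightedHomogeneous_monomial w e r rfl
    rw [weightedHomogeneousComponent_of_mem (m := m)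
        ((mem_weightedHomogeneousSubmodule R w _ _).2 (hp.mul h1)), if_neg (by omega)]
  | add p q hp hq => rw [mul_add, map_add, hp, hq, add_zero]

theorem dvd_comp (w : σ → ℕ) {p : MvPolynomial σ R} {n : ℕ} (hp : IsWeightedHomogeneous w p n)
    (q : MvPolynomial σ R) (m : ℕ) : p ∣ weightedHomogeneousComponent w m (p * q) := by
  rcases lt_or_ge m n with h | h
  · rw [comp_mul_lt w hp q m h]
    exact dvd_zero _
  · obtain ⟨m, rfl⟩ := Nat.exists_eq_add_of_le h
    rw [comp_mul w hp]
    exact dvd_mul_right _ _

/-- a component of a homogeneous polynomial with respect to another weight is homogeneous -/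
theorem comp_hom (w w' : σ → ℕ) {p : MvPolynomial σ R} {n : ℕ}
    (hp : IsWeightedHomogeneous w p n) (m : ℕ) :
    IsWeightedHomogeneous w (weightedHomogeneousComponent w' m p) n := by
  classical
  intro d hd
  rw [coeff_weightedHomogeneousComponent] at hd
  by_cases h : Finsupp.weight w' d = m
  · rw [if_pos h] at hd
    exact hp hd
  · rw [if_neg h] at hd
    exact absurd rfl hd

/-- scaling of homogeneous polynomials -/
theorem scale (w : σ → ℕ) {p : MvPolynomial σ R} {n : ℕ} (hp : IsWeightedHomogeneous w p n)
    {S : Type} [CommRing S] [Algebra R S] (f : σ → S) (g : S) :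
    aeval (fun j => g ^ w j * f j) p = g ^ n * aeval f p := by
  rw [aeval_def, aeval_def, eval₂_eq, eval₂_eq, Finset.mul_sum]
  refine Finset.sum_congr rfl fun d hd => ?_
  have h1 : Finsupp.weight w d = n := hp (mem_support_iff.1 hd)
  have h2 : ∏ i ∈ d.support, (g ^ w i * f i) ^ d i = g ^ n * ∏ i ∈ d.support, f i ^ d i := by
    rw [Finset.prod_congr rfl fun i _ => mul_pow (g ^ w i) (f i) (d i), Finset.prod_mul_distrib]
    congr 1
    rw [← h1, Finsupp.weight_apply, Finsupp.sum, ← Finset.prod_pow_eq_pow_sum]
    refine Finset.prod_congr rfl fun i _ => ?_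
    rw [← pow_mul, smul_eq_mul, mul_comm]
  rw [h2]
  ring

/-- congruence of values -/
theorem dvd_aeval_sub {S : Type} [CommRing S] [Algebra R S] {f₁ f₂ : σ → S} {a : S}
    (h : ∀ j, a ∣ f₁ j - f₂ j) (p : MvPolynomial σ R) : a ∣ aeval f₁ p - aeval f₂ p := by
  rw [← Ideal.mem_span_singleton, ← Ideal.Quotient.eq_zero_iff_mem, map_sub, sub_eq_zero]
  have h1 : ∀ f : σ → S, Ideal.Quotient.mk (Ideal.span {a}) (aeval f p) =
      aeval (fun i => Ideal.Quotient.mkₐ R (Ideal.span {a}) (f i)) p := fun f =>
    comp_aeval_apply f (Ideal.Quotient.mkₐ R (Ideal.span {a})) p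
  rw [h1, h1]
  congr 2
  funext j
  have h2 : Ideal.Quotient.mk (Ideal.span {a}) (f₁ j) = Ideal.Quotient.mk (Ideal.span {a}) (f₂ j) :=
    Ideal.Quotient.eq.2 (Ideal.mem_span_singleton.2 (h j))
  exact h2

/-- values of homogeneous polynomials at homogeneous polynomials -/
theorem aeval_hom {τ : Type} (w : τ → ℕ) {p : MvPolynomial σ R} {n : ℕ} (hp : p.IsHomogeneous n)
    {f : σ → MvPolynomial τ R} {m : ℕ} (hf : ∀ i, IsWeightedHomogeneous w (f i) m) :
    IsWeightedHomogeneous w (aeval f p) (n * m) := by
  rw [aeval_def, eval₂_eq]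
  refine IsWeightedHomogeneous.sum _ _ _ fun d hd => ?_
  have h1 : Finsupp.weight (1 : σ → ℕ) d = n := hp (mem_support_iff.1 hd)
  have h2 := IsWeightedHomogeneous.prod d.support (fun i => f i ^ d i) (fun i => d i • m)
    (w := w) fun i _ => (hf i).pow (d i)
  have h3 : ∑ i ∈ d.support, d i • m = n * m := by
    rw [← h1, Finsupp.weight_apply, Finsupp.sum, Finset.sum_mul]
    refine Finset.sum_congr rfl fun i _ => ?_
    rw [Pi.one_apply, smul_eq_mul, smul_eq_mul, mul_one]
  rw [h3] at h2
  exact h2.C_mul _

end Comp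

end Pool.Agent.H61.SM
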