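import Pool.Agent.H25.SM.UBw

/-!
# A cofinal family of Galois extensions: the variance near the critical line (row VRw)
-/

set_option autoImplicit false

open NumberField NumberField.InfinitePlace Complex Filter Topology MeasureTheory

namespace Pool.Agent.H61.SM.VRw

open Pool.Agent.H28.RC Pool.Agent.H25.HK Pool.Agent.H37.CV
open Pool.Agent.H65.CRZ Pool.Agent.H65.CRG Pool.Agent.H20.SM

/-- the integral of the main term -/
theorem int_main (g l : ℝ) (hg : 0 < g) :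
    ∫ v in (0 : ℝ)..l, Real.exp (-(2 * g) * v) * (1 + 2 * g * (l - v)) ^ 2 =
      1 / (2 * g) * ((2 * g * l) ^ 2 + 1) - 1 / (2 * g) * Real.exp (-(2 * g) * l) := by
  have hd : ∀ v : ℝ, HasDerivAt
      (fun v : ℝ => -(1 / (2 * g) * (Real.exp (-(2 * g) * v) * ((2 * g * (l - v)) ^ 2 + 1))))
      (Real.exp (-(2 * g) * v) * (1 + 2 * g * (l - v)) ^ 2) v := by
    intro v
    have h1 : HasDerivAt (fun v : ℝ => Real.exp (-(2 * g) * v))
        (Real.exp (-(2 * g) * v) * (-(2 * g))) v := by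
      have := ((hasDerivAt_id v).const_mul (-(2 * g))).exp
      simpa using this
    have h2 : HasDerivAt (fun v : ℝ => (2 * g * (l - v)) ^ 2 + 1)
        (2 * (2 * g * (l - v)) * (-(2 * g))) v := by
      have h3 : HasDerivAt (fun v : ℝ => 2 * g * (l - v)) (-(2 * g)) v := by
        have := ((hasDerivAt_id v).const_sub l).const_mul (2 * g)
        simpa using this
      have := (h3.pow 2).add_const 1
      simpa using this
    have h4 := ((h1.mul h2).const_mul (1 / (2 * g))).neg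
    refine h4.congr_deriv ?_
    field_simp
    ring
  rw [intervalIntegral.integral_eq_sub_of_hasDerivAt (fun v _ => hd v)
    (Continuous.intervalIntegrable (by fun_prop) _ _)]
  have e0 : Real.exp (-(2 * g) * 0) = 1 := by rw [mul_zero, Real.exp_zero]
  rw [e0]
  ring

/-- the main term is real -/
theorem Bmw_real (g L l : ℝ) :
    Bmw g g g L l = ((1 / ((g + g) * l ^ 2) *
      ((∫ v in (0 : ℝ)..l, Real.exp (-(2 * g) * v) * (1 + 2 * g * (l - v)) ^ 2) -
        Real.exp (-(g + g) * L) * ∫ v in (0 : ℝ)..l, Real.exp (-(2 * g) * v)) : ℝ) : ℂ) := by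
  have h1 : FFw ((g : ℂ) + g) ((g : ℂ) + g) ((g : ℂ) + g) l =
      ((∫ v in (0 : ℝ)..l, Real.exp (-(2 * g) * v) * (1 + 2 * g * (l - v)) ^ 2 : ℝ) : ℂ) := by
    unfold FFw
    rw [← intervalIntegral.integral_ofReal]
    apply intervalIntegral.integral_congr
    intro v _
    simp only
    push_cast
    have h2 : ((g : ℂ) + g - (g + g) - (g + g)) * v = -(2 * g) * v := by ring
    rw [h2]
    ring
  have h2 : FFw (-(g : ℂ) + g) (-(g : ℂ) + g) (-((g : ℂ) + g)) l =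
      ((∫ v in (0 : ℝ)..l, Real.exp (-(2 * g) * v) : ℝ) : ℂ) := by
    unfold FFw
    rw [← intervalIntegral.integral_ofReal]
    apply intervalIntegral.integral_congr
    intro v _
    simp only
    push_cast
    have h2 : (-((g : ℂ) + g) - (-(g : ℂ) + g) - (-(g : ℂ) + g)) * v = -(2 * g) * v := by ring
    rw [h2]
    ring
  unfold Bmw
  rw [h1, h2]
  push_cast
  rfl

/-- the bound of the main term -/
theorem Bmw_bound (g L l : ℝ) (hg : 0 < g) (hl : 0 < l) :
    (Bmw g g g L l).re ≤ 1 + 1 / (2 * g * l) ^ 2 := by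
  rw [Bmw_real, Complex.ofReal_re, int_main g l hg]
  have h0 : 0 ≤ ∫ v in (0 : ℝ)..l, Real.exp (-(2 * g) * v) :=
    intervalIntegral.integral_nonneg hl.le fun v _ => (Real.exp_pos _).le
  have h1 : 0 ≤ Real.exp (-(g + g) * L) * ∫ v in (0 : ℝ)..l, Real.exp (-(2 * g) * v) :=
    mul_nonneg (Real.exp_pos _).le h0
  have h2 : 0 ≤ 1 / (2 * g) * Real.exp (-(2 * g) * l) :=
    mul_nonneg (by positivity) (Real.exp_pos _).le
  have h3 : 1 / ((g + g) * l ^ 2) * (1 / (2 * g) * ((2 * g * l) ^ 2 + 1)) =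
      1 + 1 / (2 * g * l) ^ 2 := by
    field_simp
    ring
  rw [← h3]
  refine mul_le_mul_of_nonneg_left ?_ (by positivity)
  linarith

/-- the parameters -/
theorem par (r : ℕ) (hr : 1 ≤ r) (c : ℝ) (hc : 0 < c) (e : ℝ) (he : 0 < e) : ∃ q₀ : ℕ,
    ∀ q : ℕ, q₀ ≤ q → 2 * Real.log (c * (q : ℝ) ^ r) ≤ (2 + e) * (r * Real.log q) := by
  obtain ⟨q₀, hq₀, h⟩ := log_cqn hc r hr (e / 2) (by positivity)
  refine ⟨q₀, fun q hq => ?_⟩
  obtain ⟨h1, h2⟩ := h q hq
  have hq2 : 2 ≤ q := hq₀.trans hq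
  have hq1 : (1 : ℝ) < q := by exact_mod_cast hq2
  have hl : 0 < Real.log q := Real.log_pos hq1
  have hr0 : (0 : ℝ) < r := by exact_mod_cast hr
  have hrl : 0 < r * Real.log q := mul_pos hr0 hl
  linarith

theorem pf_VRw (hB : T_Bw) (hFM : T_FMw) (hCQ : T_CQz) (hPNC : T_PNC) (hIE : T_IEq) :
    T_VRw := by
  intro F _ _ _ _
  obtain ⟨A₀, hB⟩ := hB F
  refine ⟨max A₀ 1, fun A R T η hA hR hT hη => ?_⟩
  have hA0 : A₀ ≤ A := (le_max_left _ _).trans hA
  have hA1 : 1 ≤ A := (le_max_right _ _).trans hA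
  obtain ⟨hr, hfr, cK, hcK, hcA⟩ := hCQ F
  obtain ⟨r, hrdef⟩ : ∃ r : ℕ, r = nrComplexPlaces F := ⟨_, rfl⟩
  rw [← hrdef] at hr hfr hcA
  have hr0 : (0 : ℝ) < r := by exact_mod_cast hr
  have hr1 : (1 : ℝ) ≤ r := by exact_mod_cast hr
  have hR0 : 0 < R := by linarith
  obtain ⟨B, hB0, hB⟩ := hB A (1 / 4) (R / (2 * r)) R hA0 (by norm_num) (by norm_num)
    (by positivity) (by positivity)
  have hT1 : 0 < 1 + T := by linarith
  obtain ⟨x₁, hB⟩ := hB (η / 16 * (1 / (1 + T) ^ B)) (by positivity)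
  obtain ⟨x₂, hFM⟩ := hFM F A (1 / 4) (η / 16) T hA1 (by norm_num) (by norm_num) (by positivity)
    hT
  obtain ⟨x₃, hPNC⟩ := hPNC F A (η / 16) (by positivity)
  obtain ⟨q₁, hpar⟩ := Pool.Agent.H25.SM.UBw_par r hr cK hcK
  obtain ⟨e, he⟩ : ∃ e : ℝ, e = min 1 (η / 16) := ⟨_, rfl⟩
  have he0 : 0 < e := by rw [he]; exact lt_min one_pos (by positivity)
  have he1 : e ≤ 1 := by rw [he]; exact min_le_left _ _
  have he2 : e ≤ η / 16 := by rw [he]; exact min_le_right _ _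
  obtain ⟨q₂, hpar2⟩ := par r hr cK hcK e he0
  obtain ⟨q₃, hq₃⟩ := exists_nat_ge (Real.exp (8 * R))
  refine ⟨max (max (Real.exp 1) (max x₁ (max x₂ x₃))) (((max q₁ (max q₂ q₃) : ℕ) : ℝ) ^ 2),
    fun x q hx hSp t ht => ?_⟩
  have hx' := (le_max_left _ _).trans hx
  have hxe : Real.exp 1 ≤ x := (le_max_left _ _).trans hx'
  have hx'' := (le_max_right _ _).trans hx'
  have hxb : x₁ ≤ x := (le_max_left _ _).trans hx''
  have hxc : x₂ ≤ x := (le_max_left _ _).trans ((le_max_right _ _).trans hx'')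
  have hxd : x₃ ≤ x := (le_max_right _ _).trans ((le_max_right _ _).trans hx'')
  obtain ⟨hqx, hq2⟩ := Pool.Agent.H19.SM.Bz_large F A x q hxe hSp
  have hqq : max q₁ (max q₂ q₃) ≤ q := by
    have h1 : ((max q₁ (max q₂ q₃) : ℕ) : ℝ) ≤ Real.sqrt x :=
      Real.le_sqrt_of_sq_le ((le_max_right _ _).trans hx)
    exact_mod_cast h1.trans hqx
  have hqa : q₁ ≤ q := (le_max_left _ _).trans hqq
  have hqb : q₂ ≤ q := (le_max_left _ _).trans ((le_max_right _ _).trans hqq)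
  have hqc : q₃ ≤ q := (le_max_right _ _).trans ((le_max_right _ _).trans hqq)
  obtain ⟨hl0, hL1, hL2, hMl⟩ := hpar q hqa
  have hL3 := hpar2 q hqb
  have hlq : 8 * R ≤ Real.log q := by
    have h1 : Real.exp (8 * R) ≤ q := hq₃.trans (by exact_mod_cast hqc)
    have h2 := Real.log_le_log (Real.exp_pos _) h1
    rwa [Real.log_exp] at h2
  obtain ⟨hcA1, hcA2⟩ := hcA q (by omega)
  obtain ⟨L, hL⟩ : ∃ L : ℝ, L = Lg F q := ⟨_, rfl⟩
  have hLdef : L = 2 * Real.log (cK * (q : ℝ) ^ r) := by rw [hL, Lg, hcA1]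
  rw [← hLdef] at hL1 hL2 hL3
  have hrl : 0 < r * Real.log q := mul_pos hr0 hl0
  have hrl1 : Real.log q ≤ r * Real.log q := le_mul_of_one_le_left hl0.le hr1
  have hL0 : 0 < L := by linarith
  obtain ⟨M, hM⟩ : ∃ M : ℝ, M = Mo F (1 / 4) q := ⟨_, rfl⟩
  obtain ⟨l, hl⟩ : ∃ l : ℝ, l = Real.log M := ⟨_, rfl⟩
  have hll : l = r * Real.log q / 2 := by
    rw [hl, hM, Mo, hcA2, hfr, hMl]
  have hlpos : 0 < l := by rw [hll]; positivity
  obtain ⟨g, hg⟩ : ∃ g : ℝ, g = gr F R q := ⟨_, rfl⟩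
  have hg' : g = R / L := by rw [hg, gr, hL]
  have hg0 : 0 < g := by rw [hg']; positivity
  have hg8 : g ≤ 1 / 8 := by
    rw [hg', div_le_iff₀ hL0]
    linarith
  have hgC : g ≤ R / Real.log q := by
    rw [hg']
    exact div_le_div_of_nonneg_left hR0.le hl0 (by linarith)
  have hgn : ‖(g : ℂ)‖ = g := by rw [Complex.norm_real, Real.norm_eq_abs, abs_of_pos hg0]
  have hggn : ‖(g : ℂ) + g‖ = 2 * g := by
    rw [← Complex.ofReal_add, Complex.norm_real, Real.norm_eq_abs, abs_of_pos (by linarith)]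
    ring
  have hcg : R / (2 * r) / Real.log q ≤ 2 * g := by
    rw [hg', div_div, ← mul_div_assoc, div_le_div_iff₀ (by positivity) hL0]
    have h1 : R * L ≤ R * (5 / 2 * (r * Real.log q)) := mul_le_mul_of_nonneg_left hL2 hR0.le
    have h2 : R * (5 / 2 * (r * Real.log q)) ≤ 2 * R * (2 * r * Real.log q) := by
      have h3 : 0 ≤ R * (r * Real.log q) := by positivity
      linarith
    exact h1.trans h2
  obtain ⟨N, hN⟩ : ∃ N : ℝ, N = (nc (qi F q) (qi F q) : ℝ) := ⟨_, rfl⟩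
  have hN0 : 0 ≤ N := by rw [hN]; exact Nat.cast_nonneg _
  have hNc : ((nc (qi F q) (qi F q) : ℕ) : ℂ) = (N : ℂ) := by
    rw [hN]
    push_cast
    rfl
  obtain ⟨hfin, -⟩ := hIE F q hSp.sq
  -- the second moment
  have hη' : η / 16 * (1 / (1 + T) ^ B) * (1 + |t|) ^ B ≤ η / 16 := by
    have h1 : 1 / (1 + T) ^ B * (1 + |t|) ^ B ≤ 1 := by
      rw [one_div, inv_mul_le_iff₀ (by positivity), mul_one]
      exact Real.rpow_le_rpow (by positivity) (by linarith) hB0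
    have h2 := mul_le_mul_of_nonneg_left h1 (show (0 : ℝ) ≤ η / 16 by positivity)
    linarith
  have h2m : ∑ χ ∈ hfin.toFinset, ‖Zx χ (1 / 2 + g + t * I) * Pw R t q χ‖ ^ 2 ≤
      (1 + 1 / (2 * g * l) ^ 2 + η / 16) * N := by
    have h1 := hB x q hxb hSp g g g t (by rw [hgn]; exact hgC) (by rw [hgn]; exact hgC)
      (by rw [hggn]; exact hcg) hg0.le hgC
    rw [finsum_mem_eq_finite_toFinset_sum _ hfin, ← hM, ← hL, ← hl, hNc, ← hN,
      Complex.conj_ofReal] at h1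
    have h2 : (∑ χ ∈ hfin.toFinset, Zx χ (1 / 2 + g + t * I) *
        (starRingEnd ℂ) (Zx χ (1 / 2 + (g : ℂ) + t * I)) *
          ((‖pol M (cg F M g t) χ.ψ‖ ^ 2 : ℝ) : ℂ)) =
        ((∑ χ ∈ hfin.toFinset, ‖Zx χ (1 / 2 + g + t * I) * Pw R t q χ‖ ^ 2 : ℝ) : ℂ) := by
      rw [Complex.ofReal_sum]
      refine Finset.sum_congr rfl fun χ _ => ?_
      rw [Complex.mul_conj, Complex.normSq_eq_norm_sq, norm_mul, mul_pow, hM, hg]
      push_cast
      rfl
    rw [h2] at h1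
    have h3 := (Complex.abs_re_le_norm _).trans h1
    rw [Complex.sub_re, Complex.ofReal_re, Complex.re_ofReal_mul] at h3
    have h4 := (abs_le.1 h3).2
    have h5 := mul_le_mul_of_nonneg_left (Bmw_bound g L l hg0 hlpos) hN0
    have h6 := mul_le_mul_of_nonneg_right hη' hN0
    linarith
  -- the first moment
  have h1m : (1 - η / 16) * N ≤
      (∑ χ ∈ hfin.toFinset, Zx χ (1 / 2 + g + t * I) * Pw R t q χ).re := by
    have h1 := hFM x q hxc hSp g t hg0.le hg8 ht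
    rw [finsum_mem_eq_finite_toFinset_sum _ hfin, hNc, ← hN] at h1
    have h2 : (∑ χ ∈ hfin.toFinset, Zx χ (1 / 2 + g + t * I) *
        pol (Mo F (1 / 4) q) (cg F (Mo F (1 / 4) q) g t) χ.ψ) =
        ∑ χ ∈ hfin.toFinset, Zx χ (1 / 2 + g + t * I) * Pw R t q χ := by
      refine Finset.sum_congr rfl fun χ _ => ?_
      rw [hg]
      rfl
    rw [h2] at h1
    have h3 := (Complex.abs_re_le_norm _).trans h1
    rw [Complex.sub_re, Complex.ofReal_re] at h3
    have h4 := (abs_le.1 h3).1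
    linarith
  -- the number of the characters
  have hcd : (hfin.toFinset.card : ℝ) ≤ (1 + η / 16) * N := by
    have h1 := (hPNC x q hxd hSp).2
    rw [Set.ncard_eq_toFinset_card _ hfin, ← hN] at h1
    exact h1
  -- the main term
  have hk : 1 / (2 * g * l) ^ 2 ≤ 4 / R ^ 2 + η / 2 := by
    have h1 : R / (2 + e) ≤ 2 * g * l := by
      rw [hg', hll, div_le_iff₀ (by linarith)]
      have h2 : 2 * (R / L) * (r * Real.log q / 2) * (2 + e) =
          R * ((2 + e) * (r * Real.log q)) / L := by ring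
      rw [h2, le_div_iff₀ hL0]
      exact mul_le_mul_of_nonneg_left hL3 hR0.le
    have h0 : 0 < R / (2 + e) := by positivity
    have h2 : 1 / (2 * g * l) ^ 2 ≤ 1 / (R / (2 + e)) ^ 2 :=
      one_div_le_one_div_of_le (by positivity) (pow_le_pow_left₀ h0.le h1 2)
    have h3 : 1 / (R / (2 + e)) ^ 2 = 4 / R ^ 2 + (4 * e + e ^ 2) / R ^ 2 := by
      field_simp
      ring
    have h4 : (4 * e + e ^ 2) / R ^ 2 ≤ 4 * e + e ^ 2 :=
      div_le_self (by positivity) (one_le_pow₀ hR)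
    have h5 : e ^ 2 ≤ e := by nlinarith
    linarith
  -- the end
  have hsum : ∑ᶠ χ ∈ Pr F (qi F q), ‖Zx χ (1 / 2 + gr F R q + t * I) * Pw R t q χ - 1‖ ^ 2 =
      ∑ χ ∈ hfin.toFinset, ‖Zx χ (1 / 2 + g + t * I) * Pw R t q χ‖ ^ 2 -
        2 * (∑ χ ∈ hfin.toFinset, Zx χ (1 / 2 + g + t * I) * Pw R t q χ).re +
          hfin.toFinset.card := by
    rw [finsum_mem_eq_finite_toFinset_sum _ hfin, Complex.re_sum, Finset.mul_sum,
      Finset.card_eq_sum_ones, Nat.cast_sum, ← Finset.sum_sub_distrib, ← Finset.sum_add_distrib]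
    refine Finset.sum_congr rfl fun χ _ => ?_
    rw [← hg]
    have h1 : ∀ z : ℂ, ‖z - 1‖ ^ 2 = ‖z‖ ^ 2 - 2 * z.re + 1 := by
      intro z
      rw [← Complex.normSq_eq_norm_sq, ← Complex.normSq_eq_norm_sq, Complex.normSq_apply,
        Complex.normSq_apply, Complex.sub_re, Complex.sub_im, Complex.one_re, Complex.one_im]
      ring
    rw [h1]
    push_cast
    rfl
  rw [hsum, ← hN]
  have h9 := mul_le_mul_of_nonneg_right hk hN0
  have h10 : 0 ≤ η * N := mul_nonneg hη.le hN0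
  nlinarith [h2m, h1m, hcd, h9, h10]

end Pool.Agent.H61.SM.VRw
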